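import Pool.Agent.J6H64.HSC.Kahler
import Pool.Agent.J6H64.HSC.BlowUp

/-!
# MP_3413ae_ag: a blow-up of `𝔽₀ = ℙ¹ × ℙ¹` with positive holomorphic sectional curvature

The answer to the question is yes.  The surface is `ℙ¹ × ℙ¹` blown up at the two points
`(0, 0)` and `(∞, ∞)` (the degree six del Pezzo surface, of Picard number four).  It carries
the Kähler metric with local potential `log P`, where
`P(a, b) = ∑ c_{ij} |a|^{2i} |b|^{2j}`, the sum being over the `19` lattice points
`0 ≤ i, j ≤ 4`, `|i - j| ≤ 2` of a hexagon, with `c = 3` at the six vertices, `c = 8` at the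
six midpoints of the edges and `c = 36` at the seven interior points.  All its holomorphic
sectional curvatures are positive.
-/

namespace Pool.Agent.Results.MP_3413ae_ag.PositiveBlowUp

open Pool.Agent.J6H64.HSC Manifold ContDiff

/-- There are a compact connected Hausdorff complex surface `X`, which is the blow-up of
`ℙ¹ × ℙ¹ = 𝔽₀` at the two points `(0, 0)` and `(∞, ∞)`, and a Kähler metric on `X` with
positive holomorphic sectional curvature. -/
theorem result :
    ∃ (X : Type) (_ : TopologicalSpace X) (_ : ChartedSpace (ℂ × ℂ) X),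
      CompactSpace X ∧ T2Space X ∧ ConnectedSpace X ∧ IsManifold 𝓘(ℂ, ℂ × ℂ) ω X ∧
      (∃ π : X → P1 × P1, IsBlowUp π
        {(((0 : ℂ) : P1), ((0 : ℂ) : P1)), (OnePoint.infty, OnePoint.infty)}) ∧
      ∃ g : KahlerMetric X, g.HasPositiveHolSec :=
  ⟨HexSurface, inferInstance, inferInstance, inferInstance, inferInstance, inferInstance,
    inferInstance, ⟨blowDown, isBlowUp_blowDown⟩, hexMetric,
    fun _ _ z _ v hv => holSec_pos z v hv⟩

end Pool.Agent.Results.MP_3413ae_ag.PositiveBlowUp
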